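import Pool.Agent.UK.Fin

/-!
# Block unconditional bodies (MP_84a211_an)

Let `ℝ^n` be the direct sum of subspaces of dimension at most `k` (ranges of projections `P j`). The centred
maximal operators of all convex bodies of volume one which are invariant under the sign change of each single
summand are bounded on `L^p`, for all `p > 1`, with a constant depending only on `k` and `p`. For `k = 1` these
are all unconditional bodies (with respect to an arbitrary basis).
-/

set_option autoImplicit false

open MeasureTheory Set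
open scoped Pointwise ENNReal

namespace Pool.Agent.Results.MP_84a211_an.BlockUnconditional

theorem result (k : ℕ) {p : ℝ} (hp : 1 < p) (hp2 : p ≤ 2) :
    ∃ C : ℝ, ∀ (n m : ℕ) (P : Fin m → (Fin n → ℝ) →ₗ[ℝ] (Fin n → ℝ)),
      (∀ i j, i ≠ j → ∀ x, P i (P j x) = 0) → (∀ x, ∑ j, P j x = x) →
      (∀ j, Module.finrank ℝ (LinearMap.range (P j)) ≤ k) →
      ∀ B : Set (Fin n → ℝ), IsCompact B → Convex ℝ B → (interior B).Nonempty → volume B = 1 →
      (∀ j, ∀ x ∈ B, x - (2 : ℝ) • P j x ∈ B) →
      ∀ f : (Fin n → ℝ) → ℝ, Measurable f →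
        ∫⁻ x, (⨆ t : ℝ, ⨆ (_ : 0 < t),
            (∫⁻ y in t • B, ‖f (x + y)‖ₑ) / ENNReal.ofReal (t ^ n)) ^ p ≤
          ENNReal.ofReal C * ∫⁻ x, ‖f x‖ₑ ^ p :=
  Pool.Agent.UK.fin k hp hp2

end Pool.Agent.Results.MP_84a211_an.BlockUnconditional
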