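import Pool.Agent.CB.Fin

/-!
# Bodies with complex, quaternionic or Clifford symmetry (MP_84a211_an)

Let `k ≥ 1` and `p > 1 + 1/(k+2)`. The centred maximal operators of all convex bodies of volume one
in all dimensions which are invariant under `k` anticommuting complex structures (and their unit
linear combinations with the identity) are bounded on `L^p` with a constant depending only on `k` and
`p`. For `k = 1` these are the complex convex bodies and the range is `p > 4/3`.
-/

set_option autoImplicit false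

open MeasureTheory Set
open scoped Pointwise ENNReal

namespace Pool.Agent.Results.MP_84a211_an.CliffordBodies

theorem result {k : ℕ} (hk : 1 ≤ k) {p : ℝ} (hp : 1 + 1 / ((k : ℝ) + 2) < p) (hp2 : p ≤ 2) :
    ∃ C : ℝ, ∀ (n : ℕ) (J : Fin k → (Fin n → ℝ) →ₗ[ℝ] (Fin n → ℝ)),
      (∀ i x, J i (J i x) = -x) → (∀ i j, i ≠ j → ∀ x, J i (J j x) = -J j (J i x)) →
      ∀ B : Set (Fin n → ℝ), IsCompact B → Convex ℝ B → (interior B).Nonempty → volume B = 1 →
      (∀ (a : ℝ) (b : Fin k → ℝ), a ^ 2 + ∑ i, b i ^ 2 = 1 →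
        ∀ x ∈ B, a • x + ∑ i, b i • J i x ∈ B) →
      ∀ f : (Fin n → ℝ) → ℝ, Measurable f →
        ∫⁻ x, (⨆ t : ℝ, ⨆ (_ : 0 < t),
            (∫⁻ y in t • B, ‖f (x + y)‖ₑ) / ENNReal.ofReal (t ^ n)) ^ p ≤
          ENNReal.ofReal C * ∫⁻ x, ‖f x‖ₑ ^ p :=
  Pool.Agent.CB.fin hk hp hp2

end Pool.Agent.Results.MP_84a211_an.CliffordBodies
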