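import Pool.Agent.CB.Fin3

/-!
# Bodies invariant under orthogonal matrices (MP_84a211_an)

For every `k ≥ 1` there is `N` such that for `p > 1 + 1/(k+2)` the centred maximal operators of all
convex bodies of volume one consisting of families of matrices (`n j` rows and `m j` columns), invariant under
multiplication of the members by arbitrary orthogonal matrices from the left, are bounded on `L^p` with a constant
depending only on `k` and `p`, provided that for each `j` either `(k+1) m j ≤ n j` or `N ≤ n j`.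
-/

set_option autoImplicit false

open MeasureTheory Set
open scoped Pointwise ENNReal

namespace Pool.Agent.Results.MP_84a211_an.OrthogonalInvariant

theorem result {k : ℕ} (hk : 1 ≤ k) :
    ∃ N : ℕ, ∀ p : ℝ, 1 + 1 / ((k : ℝ) + 2) < p → p ≤ 2 →
      ∃ C : ℝ, ∀ (l : ℕ) (n m : Fin l → ℕ), (∀ j, (k + 1) * m j ≤ n j ∨ N ≤ n j) →
        ∀ B : Set (∀ j, Fin (n j) × Fin (m j) → ℝ),
        IsCompact B → Convex ℝ B → (interior B).Nonempty → volume B = 1 →
        (∀ O : ∀ j, Matrix (Fin (n j)) (Fin (n j)) ℝ, (∀ j, (O j).transpose * O j = 1) →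
          ∀ x ∈ B, (fun j z => ∑ i, O j z.1 i * x j (i, z.2)) ∈ B) →
        ∀ f : (∀ j, Fin (n j) × Fin (m j) → ℝ) → ℝ, Measurable f →
          ∫⁻ x, (⨆ t : ℝ, ⨆ (_ : 0 < t),
              (∫⁻ y in t • B, ‖f (x + y)‖ₑ) / ENNReal.ofReal (t ^ ∑ j, n j * m j)) ^ p ≤
            ENNReal.ofReal C * ∫⁻ x, ‖f x‖ₑ ^ p :=
  Pool.Agent.CB.fin_mix_explicit hk

end Pool.Agent.Results.MP_84a211_an.OrthogonalInvariant
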