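import Pool.Agent.MOZ.FinZ

/-!
# Unit balls of finite dimensional subspaces of `L_1` (MP_84a211_an)

For every `1 < p ≤ 2` the centred maximal operators of the unit balls of all finite dimensional subspaces of all
spaces `L_1(μ)` (the polar bodies of zonoids) are bounded on `L^p` with a constant depending only on `p`.
-/

set_option autoImplicit false

open MeasureTheory Set
open scoped Pointwise ENNReal

namespace Pool.Agent.Results.MP_84a211_an.SubspacesOfL1

theorem result {p : ℝ} (hp : 1 < p) (hp2 : p ≤ 2) :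
    ∃ C : ℝ, ∀ (n : ℕ), 1 ≤ n → ∀ (Ω : Type) [MeasurableSpace Ω] (μ : Measure Ω)
      (g : Fin n → Ω → ℝ), (∀ j, Integrable (g j) μ) →
      ∀ B : Set (Fin n → ℝ), B = {x | ∫ ω, |∑ j, x j * g j ω| ∂μ ≤ 1} →
      IsCompact B → volume B = 1 →
        ∀ f : (Fin n → ℝ) → ℝ, Measurable f →
          ∫⁻ x, (⨆ t : ℝ, ⨆ (_ : 0 < t),
              (∫⁻ y in t • B, ‖f (x + y)‖ₑ) / ENNReal.ofReal (t ^ n)) ^ p ≤
            ENNReal.ofReal C * ∫⁻ x, ‖f x‖ₑ ^ p :=
  Pool.Agent.MOZ.fin_Z_explicit hp hp2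

end Pool.Agent.Results.MP_84a211_an.SubspacesOfL1
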